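import Pool.Agent.L0h32.UX.Stm

/-! Project UX: the module WG. -/

set_option autoImplicit false

namespace Pool.Agent.L0h78.UX

open Pool.Agent.L0h32.UX

theorem t_WG (hAVG : S_AVG) (hBDG : S_BDG) : S_WG := by
  classical
  intro P T _ _ N K S Eg hT
  obtain ⟨n, hn⟩ : ∃ n, n = Fintype.card P := ⟨_, rfl⟩
  obtain ⟨R, hR⟩ : ∃ R, R = 2 * (N + 1) * N * n ^ 3 + 1 := ⟨_, rfl⟩
  have hR0 : 0 < R := by omega
  have hne : Nonempty (Fin N × P × P → Fin R) := ⟨fun _ => ⟨0, hR0⟩⟩
  have hcard : Fintype.card (Fin N × P × P → Fin R) = R ^ (N * n ^ 2) := by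
    rw [Fintype.card_fun, Fintype.card_prod, Fintype.card_prod, Fintype.card_fin, Fintype.card_fin,
      ← hn, sq]
  obtain ⟨f, hf⟩ := hAVG (Fin N × P × P → Fin R) T
    (fun τ ω => ∃ l ≤ N, ∃ z, ¬ GUq (S τ) (Eg τ) (wtF N R ω) l z) K (by
      intro τ
      have h := hBDG P N R (S τ) (Eg τ)
      rw [← hn] at h
      rw [hcard]
      have key : ∀ c X : ℕ, c * R ≤ (N + 1) * n * (N * n ^ 2) * X → 2 * c ≤ X := by
        intro c X h
        have h1 : 2 * (c * R) ≤ 2 * ((N + 1) * n * (N * n ^ 2) * X) := Nat.mul_le_mul_left 2 h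
        have h2 : 2 * ((N + 1) * n * (N * n ^ 2) * X) = (2 * (N + 1) * N * n ^ 3) * X := by ring
        have h3 : (2 * (N + 1) * N * n ^ 3) * X ≤ R * X := Nat.mul_le_mul_right X (by omega)
        have h4 : (2 * c) * R ≤ X * R := by
          calc (2 * c) * R = 2 * (c * R) := by ring
            _ ≤ _ := h1
            _ = _ := h2
            _ ≤ _ := h3
            _ = X * R := by ring
        exact Nat.le_of_mul_le_mul_right h4 hR0
      apply key
      convert h) hT
  refine ⟨fun i => wtF N R (f i), fun i j p q => ?_, fun τ => ?_⟩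
  · show wtF N R (f i) j p q ≤ _
    unfold wtF
    rw [← hn]
    split_ifs with hj
    · have := (f i (⟨j, hj⟩, p, q)).isLt
      omega
    · exact Nat.zero_le _
  · obtain ⟨i, hi, hb⟩ := hf τ
    refine ⟨i, hi, fun l hl z => ?_⟩
    by_contra hc
    exact hb ⟨l, hl, z, hc⟩

end Pool.Agent.L0h78.UX
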